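import Pool.Agent.Helper80.MM.Stm

/-! Project MM, package PB2: the lower bound for the rank. -/

set_option autoImplicit false

namespace Pool.Agent.Helper41.MM

open Pool.Agent.Helper35.EM Pool.Agent.Helper56.SA Pool.Agent.Helper56.EM Pool.Agent.Helper80.MM
  Module Submodule Set

/-- the span of the first `N` pairs -/
noncomputable def PN (s : ℕ → ℝ) (w e : ℕ → ℂ) (N : ℕ) : Submodule ℚ (ℂ × ℂ) :=
  span ℚ ((fun k => (e k * (s k : ℂ), w k)) '' Iio N)

theorem PN_mono (s : ℕ → ℝ) (w e : ℕ → ℂ) {m n : ℕ} (h : m ≤ n) : PN s w e m ≤ PN s w e n :=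
  span_mono (image_mono (Iio_subset_Iio h))

theorem PN_succ {s : ℕ → ℝ} {w e : ℕ → ℂ} {N : ℕ} {x : ℂ × ℂ} (h : x ∈ PN s w e (N + 1)) :
    ∃ a : ℚ, ∃ z ∈ PN s w e N, x = a • (e N * (s N : ℂ), w N) + z := by
  have h1 : (Iio (N + 1) : Set ℕ) = insert N (Iio N) := by
    ext k
    simp only [mem_Iio, mem_insert_iff]
    omega
  rw [PN, h1, image_insert_eq] at h
  exact mem_span_insert.1 h

theorem PB_mem {s : ℕ → ℝ} {w e : ℕ → ℂ} {x : ℂ × ℂ} (h : x ∈ PB s w e) :
    ∃ N, x ∈ PN s w e N := by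
  induction h using span_induction with
  | mem x hx =>
    obtain ⟨k, rfl⟩ := hx
    exact ⟨k + 1, subset_span ⟨k, Nat.lt_succ_self k, rfl⟩⟩
  | zero => exact ⟨0, zero_mem _⟩
  | add x y _ _ hx hy =>
    obtain ⟨m, hm⟩ := hx
    obtain ⟨n, hn⟩ := hy
    exact ⟨max m n, add_mem (PN_mono s w e (le_max_left _ _) hm)
      (PN_mono s w e (le_max_right _ _) hn)⟩
  | smul a x _ hx =>
    obtain ⟨m, hm⟩ := hx
    exact ⟨m, smul_mem _ a hm⟩

theorem e_cl {w e : ℕ → ℂ} (hL : LB w e) (A : Set ℂ) (k : ℕ) : e k ∈ M.closure A ∧ e k ≠ 0 := by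
  rcases hL.typ k with h | h
  · rw [h.1]; exact ⟨cl_one A, one_ne_zero⟩
  · rw [h.1]; exact ⟨cl_I A, Complex.I_ne_zero⟩

theorem PN_co {s : ℕ → ℝ} {w e : ℕ → ℂ} (hL : LB w e) {N : ℕ} {x : ℂ × ℂ} (h : x ∈ PN s w e N) :
    x.1 ∈ M.closure ((fun k => (s k : ℂ)) '' Iio N) ∧
      Complex.exp x.2 ∈ M.closure ((fun k => (s k : ℂ)) '' Iio N) := by
  induction h using span_induction with
  | mem x hx =>
    obtain ⟨k, hk, rfl⟩ := hx
    refine ⟨cl_mul (e_cl hL _ k).1 (cl_self ⟨k, hk, rfl⟩), ?_⟩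
    exact cl_empty_le ((hL.spn (w k)).1 (subset_span ⟨k, rfl⟩))
  | zero =>
    refine ⟨cl_zero _, ?_⟩
    show Complex.exp 0 ∈ _
    rw [Complex.exp_zero]
    exact cl_one _
  | add x y _ _ hx hy => exact ⟨cl_add hx.1 hy.1, cl_exp_add hx.2 hy.2⟩
  | smul a x _ hx => exact ⟨cl_smul a hx.1, cl_exp_smul a hx.2⟩

theorem rkN {D : ℕ} {s t : ℕ → ℝ} (hs : Seq D s t) {w e : ℕ → ℂ} (hL : LB w e) (N : ℕ) :
    ∀ U ≤ PN s w e N, FiniteDimensional ℚ U → (finrank ℚ U : ℕ∞) ≤ M.eRk (co U) := by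
  induction N with
  | zero =>
    intro U hU _
    have h1 : U = ⊥ := by
      rw [eq_bot_iff]
      refine hU.trans ?_
      rw [PN]
      simp
    rw [h1, finrank_bot]
    simp
  | succ N ih =>
    intro U hU hf
    by_cases hUN : U ≤ PN s w e N
    · exact ih U hUN hf
    obtain ⟨u, hu, hun⟩ := SetLike.not_le_iff_exists.1 hUN
    obtain ⟨c, z, hz, hc⟩ := PN_succ (hU hu)
    have hc0 : c ≠ 0 := by
      rintro rfl
      rw [zero_smul, zero_add] at hc
      exact hun (hc ▸ hz)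
    have hf' : FiniteDimensional ℚ (U ⊓ PN s w e N : Submodule ℚ (ℂ × ℂ)) :=
      Submodule.finiteDimensional_of_le inf_le_left
    have h1 := ih (U ⊓ PN s w e N) inf_le_right hf'
    have h2 : finrank ℚ U ≤ finrank ℚ (U ⊓ PN s w e N : Submodule ℚ (ℂ × ℂ)) + 1 := by
      have h3 : U ≤ (U ⊓ PN s w e N) ⊔ span ℚ {u} := by
        intro x hx
        obtain ⟨a, z', hz', ha⟩ := PN_succ (hU hx)
        have e1 : x - (a / c) • u = z' - (a / c) • z := by
          rw [ha, hc, smul_add, smul_smul, div_mul_cancel₀ _ hc0]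
          abel
        have h4 : x - (a / c) • u ∈ U ⊓ PN s w e N := by
          refine ⟨sub_mem hx (smul_mem _ _ hu), ?_⟩
          rw [e1]
          exact sub_mem hz' (smul_mem _ _ hz)
        have h5 : x = (x - (a / c) • u) + (a / c) • u := by abel
        rw [h5]
        exact add_mem (mem_sup_left h4) (mem_sup_right (smul_mem _ _ (mem_span_singleton_self u)))
      have hf2 : FiniteDimensional ℚ (span ℚ {u} : Submodule ℚ (ℂ × ℂ)) := inferInstance
      refine (Submodule.finrank_mono h3).trans ((Submodule.finrank_add_le_finrank_add_finrank _ _).trans ?_)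
      refine Nat.add_le_add_left ?_ _
      have h7 := finrank_span_le_card (R := ℚ) ({u} : Set (ℂ × ℂ))
      simpa using h7
    have h6 : u.1 ∉ M.closure (co (U ⊓ PN s w e N)) := by
      intro h7
      have h8 : u.1 ∈ M.closure ((fun k => (s k : ℂ)) '' Iio N) := by
        refine cl_le ?_ h7
        rintro y ⟨p, hp, rfl | rfl⟩
        · exact (PN_co hL hp.2).1
        · exact (PN_co hL hp.2).2
      have h9 : u.1 = (c • e N) * (s N : ℂ) + z.1 := by
        have := congrArg Prod.fst hc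
        rw [this]
        simp
      have h10 : (c • e N) * (s N : ℂ) ∈ M.closure ((fun k => (s k : ℂ)) '' Iio N) := by
        have := cl_sub h8 (PN_co hL hz).1
        rwa [h9, add_sub_cancel_right] at this
      exact hs.free N ((cl_mul_iff (cl_smul c (e_cl hL _ N).1)
        (smul_ne_zero hc0 (e_cl hL ∅ N).2)).1 h10)
    have h11 : M.eRk (insert u.1 (co (U ⊓ PN s w e N))) = M.eRk (co (U ⊓ PN s w e N)) + 1 :=
      Matroid.eRk_insert_eq_add_one ⟨mem_univ _, h6⟩
    have h12 : insert u.1 (co (U ⊓ PN s w e N)) ⊆ co U := by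
      refine insert_subset ⟨u, hu, Or.inl rfl⟩ ?_
      rintro y ⟨p, hp, h⟩
      exact ⟨p, hp.1, h⟩
    calc (finrank ℚ U : ℕ∞) ≤ (finrank ℚ (U ⊓ PN s w e N : Submodule ℚ (ℂ × ℂ)) : ℕ∞) + 1 := by
          exact_mod_cast h2
      _ ≤ M.eRk (co (U ⊓ PN s w e N)) + 1 := add_le_add_left h1 1
      _ = M.eRk (insert u.1 (co (U ⊓ PN s w e N))) := h11.symm
      _ ≤ M.eRk (co U) := M.eRk_mono h12

/-- rationally independent combinations of the `e k * s k` are algebraically independent -/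
theorem pb2 : S_PB2 := by
  intro D s t hs w e hL U hU hf
  have h1 : ∀ i : Fin (finrank ℚ U), ∃ N, ((finBasis ℚ U i : U) : ℂ × ℂ) ∈ PN s w e N :=
    fun i => PB_mem (hU (finBasis ℚ U i).2)
  choose n hn using h1
  have h2 : U ≤ PN s w e (Finset.univ.sup n) := by
    intro x hx
    have h3 := (finBasis ℚ U).sum_repr ⟨x, hx⟩
    have h4 : x = ∑ i, (finBasis ℚ U).repr ⟨x, hx⟩ i • ((finBasis ℚ U i : U) : ℂ × ℂ) := by
      have := congrArg (Subtype.val : U → ℂ × ℂ) h3
      refine this.symm.trans ?_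
      rw [Submodule.coe_sum]
      rfl
    rw [h4]
    exact sum_mem fun i _ => smul_mem _ _
      (PN_mono s w e (Finset.le_sup (f := n) (Finset.mem_univ i)) (hn i))
  exact rkN hs hL _ U h2 hf

end Pool.Agent.Helper41.MM
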